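import Mathlib
import Pool.Agent.X220.Heis

/-! MP_5e2b9f_al: a group with finite double centralizers that is not perfectly supportable. -/

namespace Pool.Agent.Results.MP_5e2b9f_al.NotSupportable

/-- Finite double centralizers. -/
def FiniteDoubleCentralizers (S : Type*) [Semigroup S] : Prop :=
  ∀ F : Set S, F.Finite → (Set.centralizer (Set.centralizer F)).Finite

/-- Perfectly supportable: there is a support map making the semigroup supp-perfect. -/
def PerfectlySupportable.{v, u} (S : Type u) [Semigroup S] : Prop :=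
  ∃ (X : Type v) (supp : S → Set X),
    (∀ f g, supp (f * g) ⊆ supp f ∪ supp g) ∧
    (∀ f g, supp f ∩ supp g = ∅ → f * g = g * f) ∧
    (∀ f, (supp f).Finite) ∧
    (∀ F : Set X, F.Finite → F ⊆ ⋃ f, supp f → {f | supp f ⊆ F}.Finite) ∧
    (∀ F : Set X, F.Finite → F ⊆ ⋃ f, supp f →
      {f | supp f ⊆ F} = Set.centralizer {f | supp f ⊆ (⋃ g, supp g) \ F})

open Pool.Agent.X220

theorem uncountable_seq : ¬ (Set.univ : Set (ℕ → ZMod 2)).Countable := by
  intro h
  have : Countable (ℕ → ZMod 2) := Set.countable_univ_iff.1 h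
  obtain ⟨g, hg⟩ := exists_injective_nat (ℕ → ZMod 2)
  classical
  let i : Set ℕ → (ℕ → ZMod 2) := fun s n => if n ∈ s then 1 else 0
  have hi : Function.Injective i := by
    intro s t hst
    ext n
    have := congrFun hst n
    by_cases h1 : n ∈ s <;> by_cases h2 : n ∈ t <;> simp [i, h1, h2] at this ⊢
  exact Function.cantor_injective (g ∘ i) (hg.comp hi)

theorem not_ps.{v} : ¬ PerfectlySupportable.{v, 0} Heis := by
  rintro ⟨X, supp, -, h2, h3, h4, h5⟩
  classical
  let e : (ℕ → ZMod 2) → Heis := fun b => ⟨0, b, 0⟩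
  have he : Function.Injective e := fun b c h => congrArg Heis.b h
  -- a level with uncountably many elements
  have hn : ∃ n, ¬ {b | (supp (e b)).ncard = n}.Countable := by
    by_contra hcon
    push Not at hcon
    apply uncountable_seq
    have : (Set.univ : Set (ℕ → ZMod 2)) = ⋃ n, {b | (supp (e b)).ncard = n} := by
      ext b
      simp
    rw [this]
    exact Set.countable_iUnion hcon
  obtain ⟨n, hn⟩ := hn
  let V : Finset X → Set (ℕ → ZMod 2) := fun D =>
    {b | (supp (e b)).ncard = n ∧ (D : Set X) ⊆ supp (e b)}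
  have hV0 : ¬ (V ∅).Countable := by
    have : V ∅ = {b | (supp (e b)).ncard = n} := by
      ext b
      simp [V]
    rw [this]
    exact hn
  have hne : ∀ D, ¬ (V D).Countable → (V D).Nonempty := by
    intro D hD
    rw [Set.nonempty_iff_ne_empty]
    intro h
    rw [h] at hD
    exact hD Set.countable_empty
  have hcard : ∀ D, ¬ (V D).Countable → D.card ≤ n := by
    intro D hD
    obtain ⟨b, hb1, hb2⟩ := hne D hD
    rw [← hb1, ← Set.ncard_coe_finset]
    exact Set.ncard_le_ncard hb2 (h3 _)
  have hmax : ∀ k, ∀ D : Finset X, ¬ (V D).Countable → n ≤ D.card + k →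
      ∃ D : Finset X, ¬ (V D).Countable ∧ ∀ x ∉ D, (V (insert x D)).Countable := by
    intro k
    induction k with
    | zero =>
      intro D hD hk
      refine ⟨D, hD, fun x hx => ?_⟩
      by_contra hcon
      have := hcard _ hcon
      rw [Finset.card_insert_of_notMem hx] at this
      omega
    | succ k ih =>
      intro D hD hk
      by_cases hx : ∃ x ∉ D, ¬ (V (insert x D)).Countable
      · obtain ⟨x, hx, hx'⟩ := hx
        refine ih _ hx' ?_
        rw [Finset.card_insert_of_notMem hx]
        omega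
      · push Not at hx
        exact ⟨D, hD, hx⟩
  obtain ⟨D, hD, hDmax⟩ := hmax n ∅ hV0 (by simp)
  obtain ⟨b0, _, hb0⟩ := hne D hD
  have hDX : (D : Set X) ⊆ ⋃ f, supp f := hb0.trans (Set.subset_iUnion supp (e b0))
  have hfin := h4 D D.finite_toSet hDX
  have hcent := h5 D D.finite_toSet hDX
  set Ax : Set Heis := {f | supp f ⊆ (⋃ g, supp g) \ D} with hAx
  let Q' : Set (ℕ →₀ ZMod 2) := Heis.q '' Ax
  have hch : ∀ q : Q', ∃ f ∈ Ax, f.q = q.1 := fun q => q.2
  choose fq hfq1 hfq2 using hch
  let bad : Set (ℕ → ZMod 2) := ⋃ q : Q', ⋃ x ∈ supp (fq q), V (insert x D)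
  have hbad : bad.Countable := by
    have : Countable (ℕ →₀ ZMod 2) := inferInstance
    refine Set.countable_iUnion fun q => ?_
    refine (h3 (fq q)).countable.biUnion fun x hx => ?_
    apply hDmax
    exact fun hxD => (hfq1 q hx).2 hxD
  have hgood : V D \ bad ⊆ e ⁻¹' {f | supp f ⊆ D} := by
    intro b hb
    show e b ∈ {f | supp f ⊆ D}
    rw [hcent]
    intro f hf
    have hqf : f.q ∈ Q' := ⟨f, hf, rfl⟩
    have hdisj : supp (fq ⟨f.q, hqf⟩) ∩ supp (e b) = ∅ := by
      rw [Set.eq_empty_iff_forall_notMem]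
      rintro x ⟨hx1, hx2⟩
      apply hb.2
      refine Set.mem_iUnion.2 ⟨⟨f.q, hqf⟩, Set.mem_iUnion₂.2 ⟨x, hx1, ?_⟩⟩
      refine ⟨hb.1.1, ?_⟩
      rw [Finset.coe_insert, Set.insert_subset_iff]
      exact ⟨hx2, hb.1.2⟩
    have hc := (Heis.commute_iff _ _).1 (h2 _ _ hdisj)
    rw [hfq2] at hc
    rw [Heis.commute_iff]
    have e1 : (e b).q = 0 := rfl
    rw [e1, pr_zero_left] at hc ⊢
    exact hc
  have hfin2 : (V D \ bad).Finite := (hfin.preimage he.injOn).subset hgood
  apply hD
  refine (hfin2.countable.union hbad).mono ?_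
  intro b hb
  by_cases h : b ∈ bad
  · exact Or.inr h
  · exact Or.inl ⟨hb, h⟩

/-- There is a group with finite double centralizers that is not perfectly supportable. -/
theorem result.{v} : ∃ (G : Type) (_ : Group G),
    FiniteDoubleCentralizers G ∧ ¬ PerfectlySupportable.{v, 0} G :=
  ⟨Heis, inferInstance, Heis.finite_dc, not_ps⟩

end Pool.Agent.Results.MP_5e2b9f_al.NotSupportable
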